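import Pool.Agent.Lib.MP_c7af3c_ag.LINES.H75.Badl
import Pool.Agent.Lib.MP_c7af3c_ag.LINES.H19.PairL

/-!
# MP_c7af3c_ag, project EDGE (borderline case n - c = 2 e): definitions
See Paper.md. `e` pairs; the columns are `x`, `V(A_j l_(i_j))`, `V(A_j l_(i'_j))` and the `U`.
-/

set_option autoImplicit false

namespace Pool.Agent.Edge

open MvPolynomial WithZero Pool.Agent.Gen Pool.Agent.Sharp Pool.Agent.Lines.H75

section defs

variable {L : Type} [Field L] {n c : ℕ} {d : Fin c → ℕ} (D : DSys L n c d)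
  (x : Fin (n + 1) → L) (j0 : Fin (n + 1))

/-- tuples of polynomials -/
abbrev TP (L : Type) [Field L] (n c : ℕ) : Type := Fin c → MvPolynomial (Fin (n + 1)) L

/-- the columns of `e` pairs -/
noncomputable def colE {e : ℕ} (A : Fin e → TP L n c) (i i' : Fin e → Fin (n + 1)) :
    Unit ⊕ (Fin e ⊕ Fin e) → Fin (n + 1) → L :=
  Sum.elim (fun _ => x) (Sum.elim (fun j => VT D x (mulT (A j) (lf x j0 (i j))))
    fun j => VT D x (mulT (A j) (lf x j0 (i' j))))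

/-- the determinant of `e` pairs -/
noncomputable def TT {e : ℕ} (ε : (Unit ⊕ (Fin e ⊕ Fin e)) ⊕ Fin c ≃ Fin (n + 1))
    (A : Fin e → TP L n c) (i i' : Fin e → Fin (n + 1)) : L :=
  Matrix.det (Matrix.of fun a k => colU D x (colE D x j0 A i i') j0 k (ε a))

/-- the contraction with `x` in the slot `s`: the coordinate `(a, b, b')` of a trivector
divisible by `x` -/
noncomputable def tau {e : ℕ} (ε : (Unit ⊕ (Fin e ⊕ Fin e)) ⊕ Fin c ≃ Fin (n + 1))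
    (A : Fin e → TP L n c) (i i' : Fin e → Fin (n + 1)) (s : Fin e) (a b b' : Fin (n + 1)) : L :=
  x a * TT D x j0 ε A (Function.update i s b) (Function.update i' s b') -
    x b * TT D x j0 ε A (Function.update i s a) (Function.update i' s b') +
    x b' * TT D x j0 ε A (Function.update i s a) (Function.update i' s b)

/-- the monomials of degree `d m - 1` in the component `m` -/
abbrev TI (n c : ℕ) (d : Fin c → ℕ) : Type :=
  {a : Fin c × (Fin (n + 1) →₀ ℕ) // a.2.degree + 1 = d a.1}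

/-- the tuple with one monomial -/
noncomputable def mu (L : Type) [Field L] {n c : ℕ} {d : Fin c → ℕ} (a : TI n c d) : TP L n c :=
  Pi.single a.1.1 (monomial a.1.2 1)

/-- no line of the zero locus through `x` -/
def NoLine : Prop :=
  ∀ y, LinearIndependent L ![x, y] → ∃ m, lineP (D.F m) x y ≠ 0

/-- all `W(p,q)` are multiples of `x` -/
def W0 : Prop := ∀ p q, WT D x p q ∈ Submodule.span L {x}

end defs

/-- the height inequality (borderline case, with the coordinate `j0` equal to 1) -/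
def HBE (n c : ℕ) (d : Fin c → ℕ) (j0 : Fin (n + 1)) : Prop :=
  ∃ A : ℕ, ∀ (L : Type) [Field L] [CharZero L] (D : DSys L n c d), Lines.Comm D →
    ∀ x : Fin (n + 1) → L, x j0 = 1 → (∀ m, eval x (D.F m) = 0) → NoLine D x →
    ∀ S : PlaceSys L, S.IsProd → ∀ B : S.V → ℕ, BD S D B → S.ht x ≤ A * tot S B

/-- The situation over the ultraproduct: `k` is the field of the elements of bounded height. -/
structure EdgeP {Ω : Type} [Field Ω] (k : Subfield Ω) {n c : ℕ} {d : Fin c → ℕ}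
    (D : DSys Ω n c d) (x : Fin (n + 1) → Ω) (j0 : Fin (n + 1)) (e : ℕ)
    (ε : (Unit ⊕ (Fin e ⊕ Fin e)) ⊕ Fin c ≃ Fin (n + 1)) : Prop where
  hj0 : x j0 = 1
  h0 : ∀ m, eval x (D.F m) = 0
  kF : ∀ m I, coeff I (D.F m) ∈ k
  kalg : ∀ (z : Ω) (p : Polynomial Ω), p ≠ 0 → (∀ i, p.coeff i ∈ k) → p.eval z = 0 → z ∈ k
  xk : ∃ i, x i ∉ k
  hno : NoLine D x
  w0 : W0 D x
  pairs : ∃ (A : Fin e → TP Ω n c) (i i' : Fin e → Fin (n + 1)), (∀ j, IT d (A j)) ∧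
    TT D x j0 ε A i i' ≠ 0
  tau_mem : ∀ (A : Fin e → TP Ω n c), (∀ j, IT d (A j)) → ∀ (i i' : Fin e → Fin (n + 1)) s a b b',
    tau D x j0 ε A i i' s a b b' ∈ k
  sb : ∀ (t : Fin 3 → Fin (n + 1)) (P : Fin 3 → Fin (n + 1) → Ω), (∀ i f, P i f ∈ k) →
    (∀ f, x f = ∑ i, P i f * x (t i)) → ∀ G : TP Ω n c, (∀ m I, coeff I (G m) ∈ k) →
    (∀ m, ∀ I ∈ (G m).support, I.degree + 2 = d m) → ∀ s : Fin (n + 1) → Ω,
    (∀ i j, VT D x (mulT G (X (t i) * X (t j))) - (x (t i) * x (t j)) • s ∈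
      Submodule.span Ω {x}) → ∀ q r, plu x s q r ∈ k

/-- integral forms of degree `3 e + 1` in three variables -/
def I3 {Ω : Type} [Field Ω] (e : ℕ) (A : MvPolynomial (Fin 3) Ω) : Prop :=
  A.IsHomogeneous (3 * e + 1) ∧ ∀ I, ∃ z : ℤ, coeff I A = z

/-- the family of `2 e` vectors -/
noncomputable def wv {Ω Q : Type} [Field Ω] [AddCommGroup Q] [Module Ω Q]
    (v : Fin 2 → MvPolynomial (Fin 3) Ω →ₗ[Ω] Q) {e : ℕ} (A : Fin e → MvPolynomial (Fin 3) Ω) :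
    Fin e ⊕ Fin e → Q :=
  Sum.elim (fun j => v 0 (A j)) fun j => v 1 (A j)

/-- the polar form of the quadratic form in the slot `s` -/
noncomputable def pol {Ω Q : Type} [Field Ω] [AddCommGroup Q] [Module Ω Q]
    (v : Fin 2 → MvPolynomial (Fin 3) Ω →ₗ[Ω] Q) {e : ℕ} (ω : Q [⋀^(Fin e ⊕ Fin e)]→ₗ[Ω] Ω)
    (A0 : MvPolynomial (Fin 3) Ω) (A : Fin e → MvPolynomial (Fin 3) Ω) (s : Fin e) : Ω :=
  ω (Function.update (wv v A) (Sum.inl s) (v 0 A0)) +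
    ω (Function.update (wv v A) (Sum.inr s) (v 1 A0))

/-- The situation on the plane, for one hypersurface of degree `3 e + 2`:
`v 0 A = V(l_1 A)`, `v 1 A = V(l_2 A)`, `l_i = X_i - y_i X_0`. -/
structure Core {Ω Q : Type} [Field Ω] [AddCommGroup Q] [Module Ω Q] (k : Subfield Ω) (e : ℕ)
    (y : Fin 3 → Ω) (v : Fin 2 → MvPolynomial (Fin 3) Ω →ₗ[Ω] Q)
    (ω : Q [⋀^(Fin e ⊕ Fin e)]→ₗ[Ω] Ω) : Prop where
  kalg : ∀ (z : Ω) (p : Polynomial Ω), p ≠ 0 → (∀ i, p.coeff i ∈ k) → p.eval z = 0 → z ∈ k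
  y0 : y 0 = 1
  yk : ∀ a : Fin 3 → Ω, (∀ i, a i ∈ k) → ∑ i, a i * y i = 0 → a = 0
  dim : Module.finrank Ω Q = 2 * e
  comm : ∀ B, v 0 ((X 2 - C (y 2) * X 0) * B) = v 1 ((X 1 - C (y 1) * X 0) * B)
  rat : ∀ A : Fin e → MvPolynomial (Fin 3) Ω, (∀ j, I3 e (A j)) → ω (wv v A) ∈ k
  nz : ∃ A : Fin e → MvPolynomial (Fin 3) Ω, (∀ j, I3 e (A j)) ∧ ω (wv v A) ≠ 0

/-- the restriction of a form to the plane with the parametrisation `P` -/
noncomputable def resP {Ω : Type} [Field Ω] {n : ℕ} (P : Fin 3 → Fin (n + 1) → Ω) :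
    MvPolynomial (Fin (n + 1)) Ω →ₐ[Ω] MvPolynomial (Fin 3) Ω :=
  aeval fun f => ∑ i, C (P i f) * X i

/-- The plane. -/
structure PlaneP {Ω : Type} [Field Ω] (k : Subfield Ω) {n c : ℕ} {d : Fin c → ℕ}
    (D : DSys Ω n c d) (x : Fin (n + 1) → Ω) (j0 : Fin (n + 1)) (e : ℕ)
    (ε : (Unit ⊕ (Fin e ⊕ Fin e)) ⊕ Fin c ≃ Fin (n + 1)) (t : Fin 3 → Fin (n + 1))
    (P : Fin 3 → Fin (n + 1) → Ω) : Prop where
  t0 : t 0 = j0
  inj : Function.Injective t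
  Pk : ∀ i f, P i f ∈ k
  Pt : ∀ i j, P i (t j) = if i = j then 1 else 0
  xP : ∀ f, x f = ∑ i, P i f * x (t i)
  xk : ∀ a : Fin 3 → Ω, (∀ i, a i ∈ k) → ∑ i, a i * x (t i) = 0 → a = 0
  van : ∀ A : TP Ω n c, Adm d A → ∀ f,
    VT D x (mulT A (X f - ∑ i, C (P i f) * X (t i))) = 0
  rat : ∀ A : Fin e → TP Ω n c, (∀ j, IT d (A j)) →
    TT D x j0 ε A (fun _ => t 1) (fun _ => t 2) ∈ k
  nz : ∃ A : Fin e → TP Ω n c, (∀ j, IT d (A j)) ∧
    TT D x j0 ε A (fun _ => t 1) (fun _ => t 2) ≠ 0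

end Pool.Agent.Edge
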