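import Pool.Agent.Lib.MP_c7af3c_ag.EDGE.Base

/-!
# MP_c7af3c_ag, project EDGE: module statements
Each owner proves `theorem xyz : XyzStatement` in EDGE/Hnn/Xyz.lean (namespace
Pool.Agent.Edge.Hnn). The statements do not depend on each other.
-/

set_option autoImplicit false

namespace Pool.Agent.Edge

open MvPolynomial WithZero Pool.Agent.Gen Pool.Agent.Sharp Pool.Agent.Lines.H75

/-! ### finite level (one field `L` with places) -/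

/-- Module DICH: large height implies `W = 0` and `e` pairs. `hnum` is the numerical condition
of the height inequality for lines. -/
def DichStatement : Prop := ∀ (n c e : ℕ) (d : Fin c → ℕ), 1 ≤ e → (∀ m, 1 ≤ d m) →
  2 * n + 1 = c + ∑ m, d m + e → n = 2 * e + c →
  (∃ M : ℕ, (∀ m, d m ≤ M) ∧ ∀ q r, q + 1 ≤ e → r + 2 * n = c + ∑ m, d m + q + 2 →
      n + 2 + q + r * M ≤ ∑ m, d m * (d m + 1) / 2) →
  ∀ (ε : (Unit ⊕ (Fin e ⊕ Fin e)) ⊕ Fin c ≃ Fin (n + 1)),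
  ∃ C : ℕ, ∀ (L : Type) [Field L] [CharZero L] (D : DSys L n c d), Lines.Comm D →
    ∀ (x : Fin (n + 1) → L) (j0 : Fin (n + 1)), x j0 = 1 → (∀ m, eval x (D.F m) = 0) →
    NoLine D x → ∀ S : PlaceSys L, S.IsProd → ∀ B : S.V → ℕ, BD S D B →
    S.ht x ≤ C * tot S B ∨ (W0 D x ∧ ∃ (a a' : Fin e → TI n c d) (i i' : Fin e → Fin (n + 1)),
      TT D x j0 ε (fun j => mu L (a j) + mu L (a' j)) i i' ≠ 0)

/-- Module TAU: the contracted determinants are bounded at every place. -/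
def TauStatement : Prop := ∀ (L : Type) [Field L] [CharZero L] (n c e : ℕ) (d : Fin c → ℕ)
  (D : DSys L n c d) (x : Fin (n + 1) → L) (j0 : Fin (n + 1)), x j0 = 1 →
  (∀ m, eval x (D.F m) = 0) → ∑ m, d m = 3 * e + 1 + c →
  ∀ (ε : (Unit ⊕ (Fin e ⊕ Fin e)) ⊕ Fin c ≃ Fin (n + 1)) (A : Fin e → TP L n c),
  (∀ j, IT d (A j)) → ∀ (i i' : Fin e → Fin (n + 1)) (s : Fin e) (a b b' : Fin (n + 1))
  (S : PlaceSys L) (B : S.V → ℕ), BD S D B → ∀ p,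
    S.v p (tau D x j0 ε A i i' s a b b') ≤ exp (B p : ℤ) ^ (2 * n + 2)

/-- Module SBL: the local size of `x ^ s` (see section 4). -/
def SblStatement : Prop := ∀ (L : Type) [Field L] [CharZero L] (n c : ℕ) (d : Fin c → ℕ)
  (D : DSys L n c d) (x : Fin (n + 1) → L) (j0 : Fin (n + 1)), x j0 = 1 →
  ∀ (t : Fin 3 → Fin (n + 1)) (P : Fin 3 → Fin (n + 1) → L),
  (∀ f, x f = ∑ i, P i f * x (t i)) → ∀ G : TP L n c,
  (∀ m, ∀ I ∈ (G m).support, I.degree + 2 = d m) → ∀ s : Fin (n + 1) → L,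
  (∀ i j, VT D x (mulT G (X (t i) * X (t j))) - (x (t i) * x (t j)) • s ∈
    Submodule.span L {x}) →
  ∀ (v : Valuation L ℤᵐ⁰) (M a g : ℤᵐ⁰), 1 ≤ M → 1 ≤ a →
  (∀ m I, I.degree = d m → ∀ f, v f ≤ 1 → v (D.del m I f) ≤ M) →
  (∀ i f, v (P i f) ≤ a) → (∀ m, CB v (G m) g) → ∀ q r, v (plu x s q r) ≤ M * g * a ^ 2

/-- Module ULTRA: a failure of the height inequality gives the ultraproduct situation. -/
def UltraStatement : Prop := DichStatement → TauStatement → SblStatement →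
  ∀ (n c e : ℕ) (d : Fin c → ℕ) (j0 : Fin (n + 1)), 1 ≤ e → (∀ m, 1 ≤ d m) →
  2 * n + 1 = c + ∑ m, d m + e → n = 2 * e + c →
  (∃ M : ℕ, (∀ m, d m ≤ M) ∧ ∀ q r, q + 1 ≤ e → r + 2 * n = c + ∑ m, d m + q + 2 →
      n + 2 + q + r * M ≤ ∑ m, d m * (d m + 1) / 2) →
  ∀ (ε : (Unit ⊕ (Fin e ⊕ Fin e)) ⊕ Fin c ≃ Fin (n + 1)), ¬ HBE n c d j0 →
  ∃ (Ω : Type) (_ : Field Ω) (_ : CharZero Ω) (k : Subfield Ω) (D : DSys Ω n c d)
    (x : Fin (n + 1) → Ω), EdgeP k D x j0 e ε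

/-! ### over `Ω` -/

/-- Module NL: `x` is not on a line over `k`. -/
def NlStatement : Prop := ∀ (Ω : Type) [Field Ω] [CharZero Ω] (k : Subfield Ω) (n c e : ℕ)
  (d : Fin c → ℕ) (D : DSys Ω n c d) (x : Fin (n + 1) → Ω) (j0 : Fin (n + 1))
  (ε : (Unit ⊕ (Fin e ⊕ Fin e)) ⊕ Fin c ≃ Fin (n + 1)), EdgeP k D x j0 e ε →
  ∀ u w : Fin (n + 1) → Ω, (∀ i, u i ∈ k) → (∀ i, w i ∈ k) → ∀ a b : Ω, x ≠ a • u + b • w

/-- Module PLEM: linear algebra (second half of section 2). `K` is an additive group of forms with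
three maps; the `v₁(A_j), v₂(A_j)` are the pairs, `κ(A) = V(λ A)`. -/
def PlemStatement : Prop := ∀ (Ω Q K : Type) [Field Ω] [CharZero Ω] [AddCommGroup Q] [Module Ω Q]
  [AddCommGroup K] (e : ℕ), Module.finrank Ω Q = 2 * e → 1 ≤ e →
  ∀ (ω : Q [⋀^(Fin e ⊕ Fin e)]→ₗ[Ω] Ω) (v₁ v₂ κ : K →+ Q),
  (∀ (A : Fin e → K) (s : Fin e), ω (Function.update (Sum.elim (fun j => v₁ (A j))
    fun j => v₂ (A j)) (Sum.inl s) (κ (A s))) = 0) →
  (∀ (A : Fin e → K) (s : Fin e), ω (Function.update (Sum.elim (fun j => v₁ (A j))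
    fun j => v₂ (A j)) (Sum.inr s) (κ (A s))) = 0) →
  (∃ A : Fin e → K, ω (Sum.elim (fun j => v₁ (A j)) fun j => v₂ (A j)) ≠ 0) → ∀ A, κ A = 0

/-- Module OMEGA: the determinant as an alternating form on `{u : F'(x) u = 0, u_j0 = 0}`. -/
def OmegaStatement : Prop := ∀ (Ω : Type) [Field Ω] (n c e : ℕ) (d : Fin c → ℕ)
  (D : DSys Ω n c d) (x : Fin (n + 1) → Ω) (j0 : Fin (n + 1)), x j0 = 1 →
  (∀ m, eval x (D.F m) = 0) → n = 2 * e + c →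
  ∀ (ε : (Unit ⊕ (Fin e ⊕ Fin e)) ⊕ Fin c ≃ Fin (n + 1)),
  ∃ Q : Submodule Ω (Fin (n + 1) → Ω), Module.finrank Ω Q = 2 * e ∧
    (∀ u, u ∈ Q ↔ u j0 = 0 ∧ ∀ m, ∑ p, eval x (pderiv p (D.F m)) * u p = 0) ∧
    ∃ ω : Q [⋀^(Fin e ⊕ Fin e)]→ₗ[Ω] Ω, ∀ u : Fin e ⊕ Fin e → Q,
      ω u = Matrix.det (Matrix.of fun a k => colU D x (Sum.elim (fun _ : Unit => x)
        fun s => (u s : Fin (n + 1) → Ω)) j0 k (ε a))

/-- Module PLANE. -/
def PlaneStatement : Prop := NlStatement → PlemStatement → OmegaStatement →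
  ∀ (Ω : Type) [Field Ω] [CharZero Ω] (k : Subfield Ω)
  (n c e : ℕ) (d : Fin c → ℕ) (D : DSys Ω n c d) (x : Fin (n + 1) → Ω) (j0 : Fin (n + 1))
  (ε : (Unit ⊕ (Fin e ⊕ Fin e)) ⊕ Fin c ≃ Fin (n + 1)), 1 ≤ e → n = 2 * e + c →
  EdgeP k D x j0 e ε → ∃ (t : Fin 3 → Fin (n + 1)) (P : Fin 3 → Fin (n + 1) → Ω),
    PlaneP k D x j0 e ε t P

/-- Module NRAT (section 3): the space `N` is defined over `k`, or all elements of `N` vanish at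
a point over `k`. Only one pair of the fixed basis `A1` is varied. -/
def NratStatement : Prop := ∀ (Ω Q : Type) [Field Ω] [CharZero Ω] [AddCommGroup Q] [Module Ω Q]
  (k : Subfield Ω) (e : ℕ) (y : Fin 3 → Ω) (v : Fin 2 → MvPolynomial (Fin 3) Ω →ₗ[Ω] Q)
  (ω : Q [⋀^(Fin e ⊕ Fin e)]→ₗ[Ω] Ω), 1 ≤ e → Core k e y v ω →
  ∀ A1 : Fin e → MvPolynomial (Fin 3) Ω, (∀ j, I3 e (A1 j)) → ω (wv v A1) ≠ 0 →
  (∃ z : Fin 3 → Ω, (∀ i, z i ∈ k) ∧ z ≠ 0 ∧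
    ∀ f : MvPolynomial (Fin 3) Ω, f.IsHomogeneous (3 * e + 1) → v 0 f = 0 → v 1 f = 0 →
      eval z f = 0) ∨
  ∀ A0 : MvPolynomial (Fin 3) Ω, A0.IsHomogeneous (3 * e + 1) →
    (∀ A, I3 e A → ∀ s, pol v ω A0 (Function.update A1 s A) s = 0) →
    v 0 A0 = 0 ∧ v 1 A0 = 0

/-- Module EXB (section 5): a form `B` of degree `3 e = d - 2` over `k` with `X_i B` in `N`. -/
def ExbStatement : Prop := ∀ (Ω Q : Type) [Field Ω] [CharZero Ω] [AddCommGroup Q] [Module Ω Q]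
  (k : Subfield Ω) (e : ℕ) (y : Fin 3 → Ω) (v : Fin 2 → MvPolynomial (Fin 3) Ω →ₗ[Ω] Q)
  (ω : Q [⋀^(Fin e ⊕ Fin e)]→ₗ[Ω] Ω), 1 ≤ e → Core k e y v ω →
  ∀ A1 : Fin e → MvPolynomial (Fin 3) Ω, (∀ j, I3 e (A1 j)) → ω (wv v A1) ≠ 0 →
  (∀ A0 : MvPolynomial (Fin 3) Ω, A0.IsHomogeneous (3 * e + 1) →
    (∀ A, I3 e A → ∀ s, pol v ω A0 (Function.update A1 s A) s = 0) →
    v 0 A0 = 0 ∧ v 1 A0 = 0) →
  ∃ B : MvPolynomial (Fin 3) Ω, B ≠ 0 ∧ B.IsHomogeneous (3 * e) ∧ (∀ I, coeff I B ∈ k) ∧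
    ∀ (i : Fin 2) (j : Fin 3), v i (X j * B) = 0

/-- Module BEZ (section 5): two forms over `k` with a common zero which is not on a line over `k`
have a common factor. -/
def BezStatement : Prop := ∀ (Ω : Type) [Field Ω] [CharZero Ω] (k : Subfield Ω) (y : Fin 3 → Ω),
  (∀ (z : Ω) (p : Polynomial Ω), p ≠ 0 → (∀ i, p.coeff i ∈ k) → p.eval z = 0 → z ∈ k) →
  y 0 = 1 → (∀ a : Fin 3 → Ω, (∀ i, a i ∈ k) → ∑ i, a i * y i = 0 → a = 0) →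
  ∀ (f B : MvPolynomial (Fin 3) Ω) (r b : ℕ), f.IsHomogeneous r → B.IsHomogeneous b →
  (∀ I, coeff I f ∈ k) → (∀ I, coeff I B ∈ k) → f ≠ 0 → B ≠ 0 → eval y f = 0 → eval y B = 0 →
  ∃ (g h : MvPolynomial (Fin 3) Ω) (δ δ' : ℕ), g.IsHomogeneous δ ∧ h.IsHomogeneous δ' ∧
    f = g * h ∧ δ + δ' = r ∧ 2 ≤ δ ∧ δ ≤ b

/-- Module NOF: the restriction to a plane has no factor of degree `2, ..., d - 2`
(in particular it is not zero). -/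
def NofStatement : Prop := ∀ (Ω : Type) [Field Ω] [CharZero Ω] (e : ℕ)
  (D : DSys Ω (2 * e + 1) 1 fun _ => 3 * e + 2) (t : Fin 3 → Fin (2 * e + 1 + 1))
  (P : Fin 3 → Fin (2 * e + 1 + 1) → Ω), 1 ≤ e → Function.Injective t →
  (∀ i j, P i (t j) = if i = j then 1 else 0) →
  ∀ (g h : MvPolynomial (Fin 3) Ω) (δ δ' : ℕ), g.IsHomogeneous δ → h.IsHomogeneous δ' →
  δ + δ' = 3 * e + 2 → 2 ≤ δ → 2 ≤ δ' → resP P (D.F 0) ≠ g * h

/-- Module NSG: the hypersurface is smooth. -/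
def NsgStatement : Prop := ∀ (Ω : Type) [Field Ω] [CharZero Ω] (n d : ℕ)
  (D : DSys Ω n 1 fun _ => d) (z : Fin (n + 1) → Ω), 1 ≤ d → z ≠ 0 →
  ∃ p, eval z (pderiv p (D.F 0)) ≠ 0

/-- Module PAS: from the plane to the core. -/
def PasStatement : Prop := OmegaStatement → ∀ (Ω : Type) [Field Ω] [CharZero Ω]
  (k : Subfield Ω) (e : ℕ)
  (D : DSys Ω (2 * e + 1) 1 fun _ => 3 * e + 2) (x : Fin (2 * e + 1 + 1) → Ω)
  (j0 : Fin (2 * e + 1 + 1)) (ε : (Unit ⊕ (Fin e ⊕ Fin e)) ⊕ Fin 1 ≃ Fin (2 * e + 1 + 1))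
  (t : Fin 3 → Fin (2 * e + 1 + 1)) (P : Fin 3 → Fin (2 * e + 1 + 1) → Ω),
  1 ≤ e → EdgeP k D x j0 e ε → PlaneP k D x j0 e ε t P →
  ∃ (Q : Submodule Ω (Fin (2 * e + 1 + 1) → Ω))
    (v : Fin 2 → MvPolynomial (Fin 3) Ω →ₗ[Ω] Q) (ω : Q [⋀^(Fin e ⊕ Fin e)]→ₗ[Ω] Ω),
    Core k e (fun i => x (t i)) v ω ∧
    (∀ (i : Fin 2) (f : MvPolynomial (Fin 3) Ω), f.IsHomogeneous (3 * e + 1) →
      (v i f : Fin (2 * e + 1 + 1) → Ω) = D.V x 0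
        ((X (t i.succ) - C (x (t i.succ)) * X (t 0)) * rename t f)) ∧
    ∀ (i : Fin 2) p, v i (resP P (pderiv p (D.F 0))) = 0

/-- Module ASM: the height inequality in the borderline case. -/
def AsmStatement : Prop := DichStatement → TauStatement → SblStatement → UltraStatement →
  NlStatement → PlemStatement → OmegaStatement → PlaneStatement → NratStatement →
  ExbStatement → BezStatement → NofStatement → NsgStatement → PasStatement →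
  ∀ e : ℕ, 1 ≤ e → ∀ j0 : Fin (2 * e + 1 + 1), HBE (2 * e + 1) 1 (fun _ => 3 * e + 2) j0

end Pool.Agent.Edge
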